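import Mathlib

/-! Composite valuation rings and the valuation ring of the field of Laurent series. -/

set_option autoImplicit false

open Polynomial

namespace Pool.Agent.R613.VF

section comp

variable {K F : Type} [Field K] [Field F] (A : ValuationSubring K) (π : A →+* F)
  (hπ : Function.Surjective π) (B : ValuationSubring F)

include hπ in
theorem ker_eq : RingHom.ker π = IsLocalRing.maximalIdeal A :=
  IsLocalRing.eq_maximalIdeal (RingHom.ker_isMaximal_of_surjective π hπ)

include hπ in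
theorem isUnit_iff_ne (x : A) : IsUnit x ↔ π x ≠ 0 := by
  rw [← not_iff_not, not_not]
  have h := ker_eq A π hπ
  rw [← RingHom.mem_ker, h]
  exact (IsLocalRing.mem_maximalIdeal x).symm

theorem isUnit_sub_iff {x : K} (hx : x ∈ A) (hx0 : x ≠ 0) : IsUnit (⟨x, hx⟩ : A) ↔ x⁻¹ ∈ A := by
  constructor
  · intro h
    obtain ⟨y, hy⟩ := h.exists_right_inv
    have h1 : x * (y : K) = 1 := congrArg Subtype.val hy
    rw [← eq_inv_of_mul_eq_one_right h1]
    exact y.2
  · intro h
    exact IsUnit.of_mul_eq_one (⟨x⁻¹, h⟩ : A) (Subtype.ext (mul_inv_cancel₀ hx0))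

/-- the composite valuation ring -/
def comp : ValuationSubring K where
  carrier := {x | ∃ h : x ∈ A, π ⟨x, h⟩ ∈ B}
  mul_mem' := by
    rintro a b ⟨ha, ha'⟩ ⟨hb, hb'⟩
    refine ⟨mul_mem ha hb, ?_⟩
    have : π ⟨a * b, mul_mem ha hb⟩ = π ⟨a, ha⟩ * π ⟨b, hb⟩ := by
      rw [← map_mul]; rfl
    rw [this]; exact mul_mem ha' hb'
  one_mem' := ⟨one_mem A, by
    have : π ⟨1, one_mem A⟩ = 1 := map_one π
    rw [this]; exact one_mem B⟩
  add_mem' := by
    rintro a b ⟨ha, ha'⟩ ⟨hb, hb'⟩
    refine ⟨add_mem ha hb, ?_⟩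
    have : π ⟨a + b, add_mem ha hb⟩ = π ⟨a, ha⟩ + π ⟨b, hb⟩ := by
      rw [← map_add]; rfl
    rw [this]; exact add_mem ha' hb'
  zero_mem' := ⟨zero_mem A, by
    have : π ⟨0, zero_mem A⟩ = 0 := map_zero π
    rw [this]; exact zero_mem B⟩
  neg_mem' := by
    rintro a ⟨ha, ha'⟩
    refine ⟨neg_mem ha, ?_⟩
    have : π ⟨-a, neg_mem ha⟩ = - π ⟨a, ha⟩ := by
      rw [← map_neg]; rfl
    rw [this]; exact neg_mem ha'
  mem_or_inv_mem' := by
    intro x
    by_cases hx0 : x = 0
    · left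
      subst hx0
      refine ⟨zero_mem A, ?_⟩
      have : π ⟨0, zero_mem A⟩ = 0 := map_zero π
      rw [this]; exact zero_mem B
    have key : ∀ y : K, y ≠ 0 → y ∈ A → y⁻¹ ∉ A → ∃ h : y ∈ A, π ⟨y, h⟩ ∈ B := by
      intro y hy0 hy hyi
      refine ⟨hy, ?_⟩
      have h1 : ¬ IsUnit (⟨y, hy⟩ : A) := fun h => hyi ((isUnit_sub_iff A hy hy0).1 h)
      rw [isUnit_iff_ne A π hπ, not_not] at h1
      rw [h1]; exact zero_mem B
    by_cases hx : x ∈ A
    · by_cases hxi : x⁻¹ ∈ A
      · have h1 : π ⟨x, hx⟩ * π ⟨x⁻¹, hxi⟩ = 1 := by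
          rw [← map_mul]
          have : (⟨x, hx⟩ : A) * ⟨x⁻¹, hxi⟩ = 1 := Subtype.ext (mul_inv_cancel₀ hx0)
          rw [this, map_one]
        rcases B.mem_or_inv_mem (π ⟨x, hx⟩) with h | h
        · left; exact ⟨hx, h⟩
        · right
          refine ⟨hxi, ?_⟩
          rwa [← eq_inv_of_mul_eq_one_right h1] at h
      · left; exact key x hx0 hx hxi
    · right
      have hxi : x⁻¹ ∈ A := (A.mem_or_inv_mem x).resolve_left hx
      exact key x⁻¹ (inv_ne_zero hx0) hxi (by rwa [inv_inv])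

theorem mem_comp {x : K} : x ∈ comp A π hπ B ↔ ∃ h : x ∈ A, π ⟨x, h⟩ ∈ B := Iff.rfl

theorem comp_le : comp A π hπ B ≤ A := fun _ h => h.1

/-- the map of the composite valuation ring to the valuation ring of the residue field -/
def compMap : comp A π hπ B →+* B where
  toFun x := ⟨π ⟨x, x.2.1⟩, x.2.2⟩
  map_one' := Subtype.ext (map_one π)
  map_mul' x y := Subtype.ext (map_mul π ⟨x, x.2.1⟩ ⟨y, y.2.1⟩)
  map_zero' := Subtype.ext (map_zero π)
  map_add' x y := Subtype.ext (map_add π ⟨x, x.2.1⟩ ⟨y, y.2.1⟩)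

theorem compMap_coe (x : comp A π hπ B) : ((compMap A π hπ B x : B) : F) = π ⟨x, x.2.1⟩ := rfl

theorem compMap_surjective : Function.Surjective (compMap A π hπ B) := by
  intro b
  obtain ⟨a, ha⟩ := hπ b
  exact ⟨⟨a, a.2, by rw [Subtype.coe_eta, ha]; exact b.2⟩, Subtype.ext ha⟩

theorem comp_isUnit_iff (x : comp A π hπ B) : IsUnit x ↔ IsUnit (compMap A π hπ B x) := by
  constructor
  · intro h; exact h.map _
  · intro h
    have h0 : π ⟨x, x.2.1⟩ ≠ 0 := by
      intro h1
      have h2 : compMap A π hπ B x = 0 := Subtype.ext h1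
      rw [h2] at h
      exact not_isUnit_zero h
    have hx0 : (x : K) ≠ 0 := by
      intro h1
      apply h0
      have : (⟨(x : K), x.2.1⟩ : A) = 0 := Subtype.ext h1
      rw [this, map_zero]
    have hu : IsUnit (⟨x, x.2.1⟩ : A) := (isUnit_iff_ne A π hπ _).2 h0
    have hxi : (x : K)⁻¹ ∈ A := (isUnit_sub_iff A x.2.1 hx0).1 hu
    have h3 : π ⟨x, x.2.1⟩ * π ⟨(x : K)⁻¹, hxi⟩ = 1 := by
      rw [← map_mul]
      have : (⟨(x : K), x.2.1⟩ : A) * ⟨(x : K)⁻¹, hxi⟩ = 1 := Subtype.ext (mul_inv_cancel₀ hx0)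
      rw [this, map_one]
    obtain ⟨b, hb⟩ := h.exists_right_inv
    have hb' : π ⟨x, x.2.1⟩ * (b : F) = 1 := congrArg Subtype.val hb
    have h4 : π ⟨(x : K)⁻¹, hxi⟩ = b := mul_left_cancel₀ h0 (h3.trans hb'.symm)
    exact IsUnit.of_mul_eq_one (⟨(x : K)⁻¹, hxi, by rw [h4]; exact b.2⟩ : comp A π hπ B)
      (Subtype.ext (mul_inv_cancel₀ hx0))

theorem comp_mem_max (x : comp A π hπ B) :
    x ∈ IsLocalRing.maximalIdeal (comp A π hπ B) ↔
      compMap A π hπ B x ∈ IsLocalRing.maximalIdeal B := by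
  rw [IsLocalRing.mem_maximalIdeal, IsLocalRing.mem_maximalIdeal, mem_nonunits_iff,
    mem_nonunits_iff, comp_isUnit_iff]

theorem comp_henselian [hA : HenselianLocalRing A] [hB : HenselianLocalRing B] :
    HenselianLocalRing (comp A π hπ B) := by
  refine { is_henselian := fun f hf a₀ h₁ h₂ => ?_ }
  -- a root in `B`
  obtain ⟨ρ, hρ⟩ : ∃ ρ : comp A π hπ B →+* B, ρ = compMap A π hπ B := ⟨_, rfl⟩
  have ev : ∀ (g : (comp A π hπ B)[X]) (a : comp A π hπ B),
      (g.map ρ).eval (ρ a) = ρ (g.eval a) := fun g a =>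
    Polynomial.eval_map_apply (f := ρ) (p := g) a
  have hmem : ∀ x : comp A π hπ B, x ∈ IsLocalRing.maximalIdeal (comp A π hπ B) ↔
      ρ x ∈ IsLocalRing.maximalIdeal B := by
    rw [hρ]; exact comp_mem_max A π hπ B
  obtain ⟨b, hb, hb'⟩ := hB.is_henselian (f.map ρ) (hf.map ρ) (ρ a₀)
    (by rw [ev]; exact (hmem _).1 h₁)
    (by
      rw [Polynomial.derivative_map, ev]
      exact h₂.map ρ)
  obtain ⟨c, rfl⟩ : ∃ c, ρ c = b := by rw [hρ]; exact compMap_surjective A π hπ B b
  -- a root in `A`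
  obtain ⟨ι, hι⟩ : ∃ ι : comp A π hπ B →+* A, ∀ x, ((ι x : A) : K) = x :=
    ⟨Subring.inclusion (comp_le A π hπ B), fun x => rfl⟩
  have evι : ∀ (g : (comp A π hπ B)[X]) (a : comp A π hπ B),
      (g.map ι).eval (ι a) = ι (g.eval a) := fun g a =>
    Polynomial.eval_map_apply (f := ι) (p := g) a
  have hπι : ∀ x : comp A π hπ B, π (ι x) = (ρ x : F) := by
    intro x
    rw [hρ, compMap_coe]
    congr 1
    exact Subtype.ext (hι x)
  have hfc : ρ (f.eval c) = 0 := by
    rw [← ev]; exact hb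
  have hfc' : IsUnit (ρ (f.derivative.eval c)) := by
    have h3 : IsUnit (ρ (f.derivative.eval a₀)) := h₂.map ρ
    rw [← ev] at h3 ⊢
    have h4 : (f.derivative.map ρ).eval (ρ c) - (f.derivative.map ρ).eval (ρ a₀) ∈
        IsLocalRing.maximalIdeal B :=
      Ideal.mem_of_dvd _ (Polynomial.sub_dvd_eval_sub _ _ _) hb'
    by_contra hcon
    have h5 : (f.derivative.map ρ).eval (ρ c) ∈ IsLocalRing.maximalIdeal B := hcon
    have h6 := (IsLocalRing.maximalIdeal B).sub_mem h5 h4
    rw [sub_sub_cancel] at h6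
    exact h6 h3
  obtain ⟨a, ha, ha'⟩ := hA.is_henselian (f.map ι) (hf.map ι) (ι c)
    (by
      rw [evι, ← ker_eq A π hπ, RingHom.mem_ker, hπι, hfc]; rfl)
    (by
      rw [Polynomial.derivative_map, evι, isUnit_iff_ne A π hπ, hπι]
      intro h7
      have : ρ (f.derivative.eval c) = 0 := Subtype.ext h7
      rw [this] at hfc'
      exact not_isUnit_zero hfc')
  have hπa : π a = (ρ c : F) := by
    rw [← ker_eq A π hπ, RingHom.mem_ker, map_sub, sub_eq_zero] at ha'
    rw [ha', hπι]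
  have haC : (a : K) ∈ comp A π hπ B := ⟨a.2, by rw [Subtype.coe_eta, hπa]; exact (ρ c).2⟩
  refine ⟨⟨a, haC⟩, ?_, ?_⟩
  · have h8 : ι ⟨a, haC⟩ = a := Subtype.ext (hι _)
    have h9 : ι (f.eval ⟨a, haC⟩) = 0 := by
      rw [← evι, h8]; exact ha
    have h10 := congrArg Subtype.val h9
    rw [hι] at h10
    exact Subtype.ext h10
  · rw [hmem, map_sub]
    have h8 : ρ ⟨a, haC⟩ = ρ c := Subtype.ext (by
      rw [← hπι, ← hπa]
      congr 1
      exact Subtype.ext (hι _))
    rw [h8]
    exact hb'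

end comp

theorem henselian_of_equiv {R S : Type} [CommRing R] [CommRing S] (e : R ≃+* S)
    [hR : HenselianLocalRing R] : HenselianLocalRing S := by
  have hn : Nontrivial S := e.symm.toEquiv.nontrivial
  have hS : IsLocalRing S := IsLocalRing.of_surjective' (e : R →+* S) e.surjective
  have hmem : ∀ x : R, e x ∈ IsLocalRing.maximalIdeal S ↔ x ∈ IsLocalRing.maximalIdeal R := by
    intro x
    rw [IsLocalRing.mem_maximalIdeal, IsLocalRing.mem_maximalIdeal, mem_nonunits_iff,
      mem_nonunits_iff]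
    exact not_congr (MulEquiv.isUnit_map e)
  refine { is_henselian := fun f hf a₀ h₁ h₂ => ?_ }
  obtain ⟨g, rfl⟩ : ∃ g : R[X], g.map (e : R →+* S) = f :=
    ⟨f.map (e.symm : S →+* R), by
      rw [Polynomial.map_map]
      simp⟩
  obtain ⟨b, rfl⟩ := e.surjective a₀
  have hg : g.Monic := by
    have := hf.map (e.symm : S →+* R)
    rw [Polynomial.map_map] at this
    simpa using this
  have ev : ∀ (g : R[X]) (a : R), (g.map (e : R →+* S)).eval (e a) = e (g.eval a) := fun g a =>
    Polynomial.eval_map_apply (f := (e : R →+* S)) (p := g) a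
  obtain ⟨a, ha, ha'⟩ := hR.is_henselian g hg b (by rw [← hmem, ← ev]; exact h₁)
    (by
      rw [Polynomial.derivative_map, ev] at h₂
      exact (MulEquiv.isUnit_map e).1 h₂)
  refine ⟨e a, ?_, ?_⟩
  · rw [Polynomial.IsRoot.def, ev, ha.eq_zero, map_zero]
  · rw [← map_sub, hmem]
    exact ha'

section laurent

variable (F : Type) [Field F]

/-- the valuation ring `F[[t]]` of `F((t))` -/
noncomputable def PS : ValuationSubring (LaurentSeries F) where
  toSubring := (algebraMap (PowerSeries F) (LaurentSeries F)).range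
  mem_or_inv_mem' x := by
    have h1 : ∀ x : LaurentSeries F, Valued.v x ≤ (1 : WithZero (Multiplicative ℤ)) →
        x ∈ (algebraMap (PowerSeries F) (LaurentSeries F)).range := by
      intro x hx
      obtain ⟨f, hf⟩ := (LaurentSeries.val_le_one_iff_eq_coe F x).1 hx
      exact ⟨f, hf⟩
    rcases le_total (Valued.v x) (1 : WithZero (Multiplicative ℤ)) with h | h
    · left; exact h1 x h
    · right
      apply h1
      rw [map_inv₀]
      exact inv_le_one_of_one_le₀ h

theorem mem_PS {x : LaurentSeries F} :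
    x ∈ PS F ↔ ∃ f : PowerSeries F, algebraMap (PowerSeries F) (LaurentSeries F) f = x := Iff.rfl

theorem mem_PS_iff {x : LaurentSeries F} :
    x ∈ PS F ↔ Valued.v x ≤ (1 : WithZero (Multiplicative ℤ)) := by
  rw [mem_PS, LaurentSeries.val_le_one_iff_eq_coe]
  rfl

/-- `F[[t]]` is isomorphic to the valuation ring -/
noncomputable def psEquiv : PowerSeries F ≃+* PS F :=
  RingEquiv.ofBijective ((algebraMap (PowerSeries F) (LaurentSeries F)).rangeRestrict) (by
    constructor
    · intro a b hab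
      have h1 := congrArg Subtype.val hab
      exact HahnSeries.ofPowerSeries_injective h1
    · exact RingHom.rangeRestrict_surjective _)

theorem psEquiv_coe (f : PowerSeries F) :
    ((psEquiv F f : PS F) : LaurentSeries F) = algebraMap (PowerSeries F) (LaurentSeries F) f := rfl

theorem henselian_ps : HenselianLocalRing (PowerSeries F) := by
  have h2 : IsAdicComplete (IsLocalRing.maximalIdeal (PowerSeries F)) (PowerSeries F) := by
    rw [PowerSeries.maximalIdeal_eq_span_X]
    infer_instance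
  have h3 : HenselianRing (PowerSeries F) (IsLocalRing.maximalIdeal (PowerSeries F)) :=
    inferInstance
  refine { is_henselian := ?_ }
  intro f hf a₀ h₁ h₂
  exact h3.is_henselian f hf a₀ h₁ (h₂.map _)

theorem henselian_PS : HenselianLocalRing (PS F) :=
  have := henselian_ps F
  henselian_of_equiv (psEquiv F)

/-- the residue map `F[[t]] → F` -/
noncomputable def psRes : PS F →+* F :=
  (PowerSeries.constantCoeff (R := F)).comp ((psEquiv F).symm : PS F →+* PowerSeries F)

theorem psRes_coe (f : PowerSeries F) : psRes F (psEquiv F f) = PowerSeries.constantCoeff f := by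
  rw [psRes, RingHom.comp_apply]
  congr 1
  exact (psEquiv F).symm_apply_apply f

theorem psRes_surjective : Function.Surjective (psRes F) := fun a =>
  ⟨psEquiv F (PowerSeries.C a), by rw [psRes_coe, PowerSeries.constantCoeff_C]⟩

end laurent

end Pool.Agent.R613.VF
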