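import Pool.Agent.R613.VF.Lang
import Pool.Agent.R613.VF.Comp

/-! The sentence and the two valued fields. -/

set_option autoImplicit false

namespace Pool.Agent.R613.VF

section sentence

/-- the matrix: `x ≠ 0`, `v x ≠ v y + v y`, `v x ≠ v y + v y + v ϖ` -/
def mat {X Y Z : Type} (x y : X) : QF X Y Z :=
  .and (.not (.eqF (.var x) .zero))
    (.and (.not (.eqV (.val (.var x)) (.add (.val (.var y)) (.val (.var y)))))
      (.not (.eqV (.val (.var x)) (.add (.add (.val (.var y)) (.val (.var y))) (.val .pi)))))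

/-- the formula `∃ x ∀ y mat` with `n + 3` blocks -/
def phi : (n : ℕ) → (X Y Z : Type) → Frag (n + 3) X Y Z
  | 0, X, Y, Z => ⟨1, 0, 0, ⟨1, 0, 0, ⟨0, 0, 0,
      (mat (.inl (.inl (.inr 0))) (.inl (.inr 0)) :
        QF (((X ⊕ Fin 1) ⊕ Fin 1) ⊕ Fin 0) (((Y ⊕ Fin 0) ⊕ Fin 0) ⊕ Fin 0)
          (((Z ⊕ Fin 0) ⊕ Fin 0) ⊕ Fin 0))⟩⟩⟩
  | n + 1, X, Y, Z => ⟨0, 0, 0, phi n (X ⊕ Fin 0) (Y ⊕ Fin 0) (Z ⊕ Fin 0)⟩

variable {K : Type} [Field K] (O : ValuationSubring K) (p : K)

/-- the meaning of the sentence -/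
def Meaning : Prop := ∃ x : K, x ≠ 0 ∧ ∀ y : K,
  O.valuation x ≠ O.valuation y * O.valuation y ∧
    O.valuation x ≠ O.valuation y * O.valuation y * O.valuation p

theorem phi_holds (n : ℕ) {X Y Z : Type} (x : X → K) (y : Y → IsLocalRing.ResidueField O)
    (z : Z → O.ValueGroup) :
    Frag.Holds O p (n + 3) (phi n X Y Z) x y z ↔ Meaning O p := by
  induction n generalizing X Y Z with
  | zero =>
    have e1 : Odd (0 + 1) := by decide
    have e2 : ¬ Odd (1 + 1) := by decide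
    have e3 : Odd (2 + 1) := by decide
    simp only [phi, Frag.Holds, if_pos e1, if_neg e2, if_pos e3, mat, QF.Holds, FTerm.eval,
      VTerm.eval, Sum.elim_inl, Sum.elim_inr]
    constructor
    · rintro ⟨x', -, -, h⟩
      refine ⟨x' 0, ?_, fun y => ?_⟩
      · obtain ⟨-, -, -, h1, -⟩ := h (fun _ => 0) Fin.elim0 Fin.elim0
        exact h1
      · obtain ⟨-, -, -, -, h1, h2⟩ := h (fun _ => y) Fin.elim0 Fin.elim0
        exact ⟨h1, h2⟩
    · rintro ⟨a, ha, h⟩
      refine ⟨fun _ => a, Fin.elim0, Fin.elim0, fun x' _ _ =>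
        ⟨Fin.elim0, Fin.elim0, Fin.elim0, ha, (h (x' 0)).1, (h (x' 0)).2⟩⟩
  | succ n ih =>
    simp only [phi, Frag.Holds, ih]
    by_cases h : Odd (n + 3 + 1)
    · rw [if_pos h]
      exact ⟨fun ⟨_, _, _, h⟩ => h, fun h => ⟨Fin.elim0, Fin.elim0, Fin.elim0, h⟩⟩
    · rw [if_neg h]
      exact ⟨fun h => h Fin.elim0 Fin.elim0 Fin.elim0, fun h _ _ _ => h⟩

theorem exists_sentence (n : ℕ) (hn : 3 ≤ n) : ∃ φ : Sentence n,
    ∀ (K : Type) [Field K] (O : ValuationSubring K) (p : K), Models O p φ ↔ Meaning O p := by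
  obtain ⟨m, rfl⟩ : ∃ m, n = m + 3 := ⟨n - 3, by omega⟩
  exact ⟨phi m Empty Empty Empty, fun K _ O p => phi_holds O p m _ _ _⟩

end sentence

section fields

variable (k : Type) [Field k]

/-- `k((s))((t))` -/
abbrev KK : Type := LaurentSeries (LaurentSeries k)

/-- the valuation ring of rank two of `k((s))((t))` -/
noncomputable def OK : ValuationSubring (KK k) :=
  comp (PS (LaurentSeries k)) (psRes (LaurentSeries k)) (psRes_surjective _) (PS k)

/-- the uniformizer `t` of `k((t))` -/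
noncomputable def tL : LaurentSeries k := HahnSeries.single 1 1

/-- the uniformizer `s` of `k((s))((t))` -/
noncomputable def sK : KK k := HahnSeries.C (tL k)

theorem henselian_OK : HenselianLocalRing (OK k) :=
  have := henselian_PS (LaurentSeries k)
  have := henselian_PS k
  comp_henselian _ _ _ _

theorem PS_mem_max_iff (x : PS k) : x ∈ IsLocalRing.maximalIdeal (PS k) ↔ psRes k x = 0 := by
  rw [← ker_eq (PS k) (psRes k) (psRes_surjective k), RingHom.mem_ker]

theorem tL_ne : tL k ≠ 0 := by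
  rw [tL, Ne, HahnSeries.single_eq_zero_iff]
  exact one_ne_zero

theorem tL_eq : algebraMap (PowerSeries k) (LaurentSeries k) PowerSeries.X = tL k :=
  HahnSeries.ofPowerSeries_X

theorem div_tL_mem {x : LaurentSeries k} (hx : x ∈ PS k) (h0 : psRes k ⟨x, hx⟩ = 0) :
    ∃ y ∈ PS k, y * tL k = x := by
  obtain ⟨f, hf⟩ := (psEquiv k).surjective ⟨x, hx⟩
  have h1 : algebraMap (PowerSeries k) (LaurentSeries k) f = x := congrArg Subtype.val hf
  rw [← hf, psRes_coe] at h0
  obtain ⟨g, hg⟩ := PowerSeries.X_dvd_iff.2 h0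
  refine ⟨algebraMap (PowerSeries k) (LaurentSeries k) g, ⟨g, rfl⟩, ?_⟩
  rw [← tL_eq, ← map_mul, mul_comm, ← hg, h1]

theorem tL_mem : tL k ∈ PS k := ⟨PowerSeries.X, tL_eq k⟩

theorem psRes_tL : psRes k ⟨tL k, tL_mem k⟩ = 0 := by
  have h : (⟨tL k, tL_mem k⟩ : PS k) = psEquiv k PowerSeries.X := Subtype.ext (tL_eq k).symm
  rw [h, psRes_coe, PowerSeries.constantCoeff_X]

theorem uniformizer_tL : IsUniformizer (PS k) (tL k) := by
  refine ⟨tL_ne k, ?_, fun a ha => ?_⟩
  · exact ((PS k).valuation_lt_one_iff ⟨tL k, tL_mem k⟩).1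
      ((PS_mem_max_iff k _).2 (psRes_tL k))
  · have ha' : a ∈ PS k := ((PS k).valuation_le_one_iff a).1 ha.le
    have h1 : psRes k ⟨a, ha'⟩ = 0 :=
      (PS_mem_max_iff k _).1 (((PS k).valuation_lt_one_iff ⟨a, ha'⟩).2 ha)
    obtain ⟨y, hy, hyx⟩ := div_tL_mem k ha' h1
    exact ((PS k).valuation_le_iff a (tL k)).2 ⟨⟨y, hy⟩, hyx⟩

theorem C_mem (a : LaurentSeries k) : (HahnSeries.C a : KK k) ∈ PS (LaurentSeries k) :=
  ⟨PowerSeries.C a, by
    rw [LaurentSeries.coe_algebraMap]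
    exact HahnSeries.ofPowerSeries_C a⟩

theorem psRes_C (a : LaurentSeries k) :
    psRes (LaurentSeries k) ⟨HahnSeries.C a, C_mem k a⟩ = a := by
  have h : (⟨HahnSeries.C a, C_mem k a⟩ : PS (LaurentSeries k)) =
      psEquiv (LaurentSeries k) (PowerSeries.C a) := Subtype.ext (by
    rw [psEquiv_coe, LaurentSeries.coe_algebraMap]
    exact (HahnSeries.ofPowerSeries_C a).symm)
  rw [h, psRes_coe, PowerSeries.constantCoeff_C]

theorem mem_OK {x : KK k} : x ∈ OK k ↔ ∃ h : x ∈ PS (LaurentSeries k),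
    psRes (LaurentSeries k) ⟨x, h⟩ ∈ PS k := Iff.rfl

theorem mem_max_OK {x : OK k} : x ∈ IsLocalRing.maximalIdeal (OK k) ↔
    psRes k ⟨psRes (LaurentSeries k) ⟨x, x.2.1⟩, x.2.2⟩ = 0 :=
  (comp_mem_max _ _ _ _ x).trans (PS_mem_max_iff k _)

theorem psRes_sK (h : sK k ∈ PS (LaurentSeries k)) :
    psRes (LaurentSeries k) ⟨sK k, h⟩ = tL k := psRes_C k _

theorem sK_mem' : sK k ∈ PS (LaurentSeries k) := C_mem k _

theorem sK_mem : sK k ∈ OK k := (mem_OK k).2 ⟨sK_mem' k, by
  rw [psRes_sK]; exact tL_mem k⟩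

theorem sK_ne : sK k ≠ 0 := by
  rw [sK, Ne, map_eq_zero_iff _ HahnSeries.C_injective]
  exact tL_ne k

theorem uniformizer_sK : IsUniformizer (OK k) (sK k) := by
  refine ⟨sK_ne k, ?_, fun a ha => ?_⟩
  · refine ((OK k).valuation_lt_one_iff ⟨sK k, sK_mem k⟩).1 ((mem_max_OK k).2 ?_)
    have h1 := psRes_tL k
    convert h1 using 3
    exact psRes_sK k _
  · have ha' : a ∈ OK k := ((OK k).valuation_le_one_iff a).1 ha.le
    have h1 := (mem_max_OK k).1 (((OK k).valuation_lt_one_iff ⟨a, ha'⟩).2 ha)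
    obtain ⟨y, hy, hyx⟩ := div_tL_mem k _ h1
    -- the quotient `a / s`
    have hs' : (sK k)⁻¹ = HahnSeries.C (tL k)⁻¹ := by rw [sK, map_inv₀]
    have h3 : a * (sK k)⁻¹ ∈ PS (LaurentSeries k) := by
      rw [hs']; exact mul_mem ha'.1 (C_mem k _)
    have h4 : psRes (LaurentSeries k) ⟨a * (sK k)⁻¹, h3⟩ = y := by
      have h5 : (⟨a * (sK k)⁻¹, h3⟩ : PS (LaurentSeries k)) =
          ⟨a, ha'.1⟩ * ⟨HahnSeries.C (tL k)⁻¹, C_mem k _⟩ := Subtype.ext (by
        change a * (sK k)⁻¹ = a * HahnSeries.C (tL k)⁻¹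
        rw [hs'])
      rw [h5, map_mul, psRes_C, ← hyx, mul_assoc, mul_inv_cancel₀ (tL_ne k), mul_one]
    refine ((OK k).valuation_le_iff a (sK k)).2 ⟨⟨a * (sK k)⁻¹, h3, by rw [h4]; exact hy⟩, ?_⟩
    change a * (sK k)⁻¹ * sK k = a
    rw [mul_assoc, inv_mul_cancel₀ (sK_ne k), mul_one]

/-- the residue field of a valuation ring with a surjective map to a field -/
theorem residue_equiv {K F : Type} [Field K] [Field F] (A : ValuationSubring K) (π : A →+* F)
    (hπ : Function.Surjective π) : Nonempty (IsLocalRing.ResidueField A ≃+* F) :=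
  ⟨(Ideal.quotEquivOfEq (ker_eq A π hπ).symm).trans (RingHom.quotientKerEquivOfSurjective hπ)⟩

theorem residue_PS : Nonempty (IsLocalRing.ResidueField (PS k) ≃+* k) :=
  residue_equiv _ (psRes k) (psRes_surjective k)

theorem residue_OK : Nonempty (IsLocalRing.ResidueField (OK k) ≃+* k) :=
  residue_equiv _ ((psRes k).comp (compMap (PS (LaurentSeries k)) (psRes (LaurentSeries k))
    (psRes_surjective _) (PS k)))
    ((psRes_surjective k).comp (compMap_surjective _ _ _ _))

theorem dvr_PS : IsDiscreteValuationRing (PS k) :=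
  IsDiscreteValuationRing.RingEquivClass.isDiscreteValuationRing (psEquiv k)

theorem ne_top_of_uniformizer {K : Type} [Field K] (O : ValuationSubring K) (p : K)
    (h : IsUniformizer O p) : O ≠ ⊤ := by
  intro h1
  have h2 : p⁻¹ ∈ O := by rw [h1]; trivial
  have h3 := (O.valuation_le_one_iff p⁻¹).2 h2
  rw [map_inv₀] at h3
  have h4 : (0 : O.ValueGroup) < O.valuation p :=
    zero_lt_iff.2 ((Valuation.ne_zero_iff _).2 h.1)
  exact absurd h.2.1 (not_lt.2 ((inv_le_one₀ h4).1 h3))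

theorem valuation_single (n : ℤ) : (PS k).valuation (HahnSeries.single n 1 : LaurentSeries k) =
    (PS k).valuation (tL k) ^ n := by
  rw [← map_zpow₀, tL, RatFunc.single_zpow]

theorem not_meaning_L : ¬ Meaning (PS k) (tL k) := by
  rintro ⟨x, hx, h⟩
  have hx1 : (HahnSeries.single x.order 1 : LaurentSeries k) * (x.powerSeriesPart : PowerSeries k) =
      x := LaurentSeries.single_order_mul_powerSeriesPart x
  have hu : IsUnit x.powerSeriesPart := by
    rw [PowerSeries.isUnit_iff_constantCoeff, isUnit_iff_ne_zero,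
      ← PowerSeries.coeff_zero_eq_constantCoeff_apply, LaurentSeries.powerSeriesPart_coeff]
    rw [Nat.cast_zero, add_zero]
    exact mt HahnSeries.coeff_order_eq_zero.1 hx
  have hv : (PS k).valuation ((x.powerSeriesPart : PowerSeries k) : LaurentSeries k) = 1 := by
    have h1 : IsUnit (psEquiv k x.powerSeriesPart) := hu.map (psEquiv k)
    exact ((PS k).valuation_eq_one_iff _).1 h1
  have hvx : (PS k).valuation x = (PS k).valuation (tL k) ^ x.order := by
    conv_lhs => rw [← hx1]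
    rw [map_mul, hv, mul_one, valuation_single]
  have ht : (PS k).valuation (tL k) ≠ 0 := (Valuation.ne_zero_iff _).2 (tL_ne k)
  obtain ⟨m, hm⟩ := Int.even_or_odd' x.order
  obtain ⟨h1, h2⟩ := h (HahnSeries.single m 1)
  rcases hm with hm | hm
  · apply h1
    rw [hvx, valuation_single, ← zpow_add₀ ht, hm]
    congr 1; ring
  · apply h2
    rw [hvx, valuation_single, ← zpow_add₀ ht, ← zpow_add_one₀ ht, hm]
    congr 1; ring

theorem meaning_K : Meaning (OK k) (sK k) := by
  let F := LaurentSeries k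
  let t : KK k := HahnSeries.single 1 1
  have ht : t ≠ 0 := by
    rw [Ne, HahnSeries.single_eq_zero_iff]; exact one_ne_zero
  have key : ∀ a y : KK k, Valued.v a = (1 : WithZero (Multiplicative ℤ)) → a * (y * y) ≠ t := by
    intro a y ha h
    have h1 : Valued.v t = WithZero.exp (-1 : ℤ) := by
      have := LaurentSeries.valuation_single_zpow F 1
      exact this
    rw [← h, map_mul, ha, one_mul, map_mul] at h1
    have hy : Valued.v y ≠ (0 : WithZero (Multiplicative ℤ)) := by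
      intro h0
      rw [h0, mul_zero] at h1
      exact WithZero.exp_ne_zero h1.symm
    have h2 := congrArg WithZero.log h1
    rw [WithZero.log_mul hy hy, WithZero.log_exp] at h2
    omega
  have hunit : ∀ a : (OK k)ˣ, Valued.v ((a : OK k) : KK k) = (1 : WithZero (Multiplicative ℤ)) := by
    intro a
    have h1 : Valued.v ((a : OK k) : KK k) ≤ (1 : WithZero (Multiplicative ℤ)) :=
      (mem_PS_iff F).1 (a : OK k).2.1
    have h2 : Valued.v (((a⁻¹ : (OK k)ˣ) : OK k) : KK k) ≤ (1 : WithZero (Multiplicative ℤ)) :=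
      (mem_PS_iff F).1 ((a⁻¹ : (OK k)ˣ) : OK k).2.1
    have h3 : ((a : OK k) : KK k) * (((a⁻¹ : (OK k)ˣ) : OK k) : KK k) = 1 :=
      congrArg Subtype.val a.mul_inv
    have h4 := congrArg (Valued.v (R := KK k) (Γ₀ := WithZero (Multiplicative ℤ))) h3
    rw [map_mul, map_one] at h4
    refine le_antisymm h1 ?_
    rw [← h4]
    exact mul_le_of_le_one_right' h2
  have hs : Valued.v (sK k) = (1 : WithZero (Multiplicative ℤ)) := by
    have h1 : Valued.v (sK k) ≤ (1 : WithZero (Multiplicative ℤ)) :=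
      (mem_PS_iff F).1 (C_mem k _)
    have h2 : Valued.v (sK k)⁻¹ ≤ (1 : WithZero (Multiplicative ℤ)) := by
      have hs' : (sK k)⁻¹ = HahnSeries.C (tL k)⁻¹ := by rw [sK, map_inv₀]
      rw [hs']
      exact (mem_PS_iff F).1 (C_mem k _)
    rw [map_inv₀] at h2
    refine le_antisymm h1 ?_
    exact (inv_le_one₀ (zero_lt_iff.2 ((Valuation.ne_zero_iff _).2 (sK_ne k)))).1 h2
  refine ⟨t, ht, fun y => ⟨fun h => ?_, fun h => ?_⟩⟩
  · rw [← map_mul, ValuationSubring.valuation_eq_iff] at h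
    obtain ⟨a, ha⟩ := h
    exact key _ y (hunit a) ha
  · rw [← map_mul, ← map_mul, ValuationSubring.valuation_eq_iff] at h
    obtain ⟨a, ha⟩ := h
    refine key (((a : OK k) : KK k) * sK k) y (by rw [map_mul, hunit, hs, one_mul]) ?_
    rw [← ha]; ring

end fields

end Pool.Agent.R613.VF
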