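import Mathlib

/-!
# The three-sorted language of valued fields with a constant, and its standard fragments

A valued field is given by a field `K` and a valuation ring `O` of `K`. The three sorts are `K`, the
residue field `IsLocalRing.ResidueField O` and the value group with infinity, for which we take the
type `O.ValueGroup` of Mathlib. Mathlib writes it multiplicatively, with `0` for infinity, and with
the reverse order (`x` lies in `O` iff `O.valuation x ≤ 1`).
-/

set_option autoImplicit false

namespace Pool.Agent.R613.VF

/-- Terms of the field sort; `X` is the set of variables of the field sort. -/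
inductive FTerm (X : Type) : Type
  /-- a variable -/
  | var (x : X)
  /-- the constant `ϖ` -/
  | pi
  /-- zero -/
  | zero
  /-- one -/
  | one
  /-- addition -/
  | add (s t : FTerm X)
  /-- negation -/
  | neg (s : FTerm X)
  /-- multiplication -/
  | mul (s t : FTerm X)

/-- Terms of the residue field sort; `X`, `Y` are the sets of variables of the field sort and of the
residue field sort. -/
inductive RTerm (X Y : Type) : Type
  /-- a variable -/
  | var (y : Y)
  /-- zero -/
  | zero
  /-- one -/
  | one
  /-- addition -/
  | add (s t : RTerm X Y)
  /-- negation -/
  | neg (s : RTerm X Y)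
  /-- multiplication -/
  | mul (s t : RTerm X Y)
  /-- the residue of an element of the field -/
  | res (s : FTerm X)

/-- Terms of the value group sort; `X`, `Z` are the sets of variables of the field sort and of the
value group sort. -/
inductive VTerm (X Z : Type) : Type
  /-- a variable -/
  | var (z : Z)
  /-- the neutral element of the value group -/
  | zero
  /-- infinity -/
  | infty
  /-- addition of the value group -/
  | add (s t : VTerm X Z)
  /-- negation of the value group -/
  | neg (s : VTerm X Z)
  /-- the value of an element of the field -/
  | val (s : FTerm X)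

/-- Quantifier-free formulas; `X`, `Y`, `Z` are the sets of variables of the field sort, the residue
field sort and the value group sort. -/
inductive QF (X Y Z : Type) : Type
  /-- equality in the field sort -/
  | eqF (s t : FTerm X)
  /-- equality in the residue field sort -/
  | eqR (s t : RTerm X Y)
  /-- equality in the value group sort -/
  | eqV (s t : VTerm X Z)
  /-- `s ≤ t` in the value group sort -/
  | leV (s t : VTerm X Z)
  /-- negation -/
  | not (φ : QF X Y Z)
  /-- conjunction -/
  | and (φ ψ : QF X Y Z)
  /-- disjunction -/
  | or (φ ψ : QF X Y Z)

/-- The formulas with `n` alternating blocks of quantifiers, the last one existential, in front of a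
quantifier-free formula. The blocks may be empty, and a block may contain variables of all sorts.
`Frag 1`, `Frag 2`, `Frag 3` are the formulas with the quantifier pattern `∃`, `∀∃`, `∃∀∃`. -/
def Frag : ℕ → Type → Type → Type → Type
  | 0, X, Y, Z => QF X Y Z
  | n + 1, X, Y, Z => Σ a b c : ℕ, Frag n (X ⊕ Fin a) (Y ⊕ Fin b) (Z ⊕ Fin c)

/-- Sentences with `n` alternating blocks of quantifiers, the last one existential. -/
abbrev Sentence (n : ℕ) : Type := Frag n Empty Empty Empty

section

variable {K : Type} [Field K] (O : ValuationSubring K) (p : K) {X Y Z : Type}

/-- The value of a term of the field sort when `ϖ` is interpreted as `p`. -/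
def FTerm.eval (x : X → K) : FTerm X → K
  | var i => x i
  | pi => p
  | zero => 0
  | one => 1
  | add s t => s.eval x + t.eval x
  | neg s => - s.eval x
  | mul s t => s.eval x * t.eval x

open Classical in
/-- The residue of an element of the field; it is zero for the elements outside of the valuation
ring. -/
noncomputable def resMap (a : K) : IsLocalRing.ResidueField O :=
  if h : a ∈ O then IsLocalRing.residue O ⟨a, h⟩ else 0

/-- The value of a term of the residue field sort. -/
noncomputable def RTerm.eval (x : X → K) (y : Y → IsLocalRing.ResidueField O) :
    RTerm X Y → IsLocalRing.ResidueField O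
  | var i => y i
  | zero => 0
  | one => 1
  | add s t => s.eval x y + t.eval x y
  | neg s => - s.eval x y
  | mul s t => s.eval x y * t.eval x y
  | res s => resMap O (s.eval p x)

/-- The value of a term of the value group sort (in the multiplicative notation of Mathlib). -/
noncomputable def VTerm.eval (x : X → K) (z : Z → O.ValueGroup) : VTerm X Z → O.ValueGroup
  | var i => z i
  | zero => 1
  | infty => 0
  | add s t => s.eval x z * t.eval x z
  | neg s => (s.eval x z)⁻¹
  | val s => O.valuation (s.eval p x)

/-- Truth of a quantifier-free formula in the valued field. -/
def QF.Holds (x : X → K) (y : Y → IsLocalRing.ResidueField O) (z : Z → O.ValueGroup) :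
    QF X Y Z → Prop
  | eqF s t => s.eval p x = t.eval p x
  | eqR s t => s.eval O p x y = t.eval O p x y
  | eqV s t => s.eval O p x z = t.eval O p x z
  | leV s t => t.eval O p x z ≤ s.eval O p x z
  | not φ => ¬ φ.Holds x y z
  | and φ ψ => φ.Holds x y z ∧ ψ.Holds x y z
  | or φ ψ => φ.Holds x y z ∨ ψ.Holds x y z

/-- Truth of a formula in the valued field: the `n`-th block, counted from the inside, is
existential if `n` is odd and universal if `n` is even. -/
def Frag.Holds : (n : ℕ) → {X Y Z : Type} → Frag n X Y Z → (X → K) →
    (Y → IsLocalRing.ResidueField O) → (Z → O.ValueGroup) → Prop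
  | 0, _, _, _, φ, x, y, z => QF.Holds O p x y z φ
  | n + 1, _, _, _, ⟨a, b, c, φ⟩, x, y, z =>
    if Odd (n + 1) then
      ∃ (x' : Fin a → K) (y' : Fin b → IsLocalRing.ResidueField O) (z' : Fin c → O.ValueGroup),
        Frag.Holds n φ (Sum.elim x x') (Sum.elim y y') (Sum.elim z z')
    else
      ∀ (x' : Fin a → K) (y' : Fin b → IsLocalRing.ResidueField O) (z' : Fin c → O.ValueGroup),
        Frag.Holds n φ (Sum.elim x x') (Sum.elim y y') (Sum.elim z z')

/-- The sentence `φ` is true in the valued field `(K, O)` with `ϖ` interpreted as `p`. -/
def Models {n : ℕ} (φ : Sentence n) : Prop :=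
  Frag.Holds O p n φ Empty.elim Empty.elim Empty.elim

/-- `p` is a uniformizer: a nonzero element of smallest positive value (in the order of Mathlib,
of largest value smaller than one). -/
def IsUniformizer : Prop :=
  p ≠ 0 ∧ O.valuation p < 1 ∧ ∀ a : K, O.valuation a < 1 → O.valuation a ≤ O.valuation p

end

end Pool.Agent.R613.VF
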